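import Mathlib

/-! Fractional dimension of finite posets; the convex geometries `P(k,n)`; upper bound. -/

set_option autoImplicit false
set_option linter.unusedVariables false
set_option linter.unusedSectionVars false

namespace Pool.Agent.X145.FD

open Finset

/-- linear extensions of a poset: total orders containing the order -/
structure LinExt (P : Type) [PartialOrder P] where
  le : P → P → Prop
  refl : ∀ a, le a a
  trans : ∀ a b c, le a b → le b c → le a c
  antisymm : ∀ a b, le a b → le b a → a = b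
  total : ∀ a b, le a b ∨ le b a
  ext : ∀ a b, a ≤ b → le a b

/-- `a > b` in `L` -/
def LinExt.gt {P : Type} [PartialOrder P] (L : LinExt P) (a b : P) : Prop := L.le b a ∧ a ≠ b

theorem LinExt.inj {P : Type} [PartialOrder P] (L L' : LinExt P) (h : L.le = L'.le) : L = L' := by
  cases L; cases L'; simp at h; subst h; rfl

instance {P : Type} [PartialOrder P] [Finite P] : Finite (LinExt P) :=
  Finite.of_injective (fun L : LinExt P => L.le) (fun L L' h => LinExt.inj L L' h)

noncomputable instance {P : Type} [PartialOrder P] [Finite P] : Fintype (LinExt P) := Fintype.ofFinite _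

/-- incomparable pairs -/
def Incomp {P : Type} [PartialOrder P] (a b : P) : Prop := ¬ a ≤ b ∧ ¬ b ≤ a

open Classical in
/-- fractional realizers -/
def IsRealizer {P : Type} [PartialOrder P] [Finite P] (w : LinExt P → ℝ) : Prop :=
  (∀ L, 0 ≤ w L) ∧ ∀ a b : P, Incomp a b → 1 ≤ ∑ L ∈ univ.filter (fun L : LinExt P => L.gt a b), w L

open Classical in
/-- fractional dimension -/
noncomputable def fdim (P : Type) [PartialOrder P] [Finite P] : ℝ :=
  if ∀ a b : P, ¬ Incomp a b then 1 else sInf {t : ℝ | ∃ w : LinExt P → ℝ, IsRealizer w ∧ t = ∑ L, w L}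

/-- membership in `P(k,n)`; `[i] = {1,…,i}` -/
def InP (k n : ℕ) (A : Finset ℕ) : Prop := A ⊆ Icc 1 n ∧ ∀ i, A.card = k + i → Icc 1 i ⊆ A

/-- the poset `P(k,n)`, ordered by inclusion -/
abbrev PP (k n : ℕ) := {A : Finset ℕ // InP k n A}

instance (k n : ℕ) : Finite (PP k n) := by
  have : Finite {A : Finset ℕ // A ∈ (Icc 1 n).powerset} := inferInstance
  exact Finite.of_injective (fun A : PP k n => (⟨A.1, mem_powerset.2 A.2.1⟩ : {A : Finset ℕ // A ∈ (Icc 1 n).powerset}))
    (fun A B h => Subtype.ext (by simpa using h))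

theorem few_above {k n : ℕ} {b : Finset ℕ} (hb : InP k n b) {x : ℕ} (hx : x ∉ b) (hx1 : 1 ≤ x) :
    (b.filter (fun y => x < y)).card ≤ k := by
  by_cases hc : b.card ≤ k
  · exact (card_filter_le _ _).trans hc
  · push Not at hc
    obtain ⟨i, hi⟩ : ∃ i, b.card = k + i := ⟨b.card - k, by omega⟩
    have h1 := hb.2 i hi
    have hxi : i < x := by
      by_contra h
      push Not at h
      exact hx (h1 (mem_Icc.2 ⟨hx1, h⟩))
    have h2 : b.filter (fun y => x < y) ⊆ b \ Icc 1 i := by
      intro y hy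
      rw [mem_filter] at hy
      rw [mem_sdiff, mem_Icc]
      exact ⟨hy.1, fun h => by omega⟩
    have h3 := card_le_card h2
    rw [card_sdiff_of_subset h1, Nat.card_Icc] at h3
    omega

section
variable {k n : ℕ}

/-- `max (A ∩ X)` -/
def ff (X : Finset ℕ) (A : PP k n) : ℕ := (A.1 ∩ X).sup id

theorem ff_mono (X : Finset ℕ) (A B : PP k n) (h : A ≤ B) : ff X A ≤ ff X B :=
  sup_mono (inter_subset_inter_right h)

/-- the key map -/
noncomputable def key (X : Finset ℕ) (A : PP k n) : ℕ ×ₗ LinearExtension (PP k n) := toLex (ff X A, toLinearExtension A)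

theorem key_inj (X : Finset ℕ) : Function.Injective (key X : PP k n → _) := by
  intro A B h
  have h1 := congrArg (fun z => (ofLex z).2) h
  exact h1

/-- the linear extension of a set `X` -/
noncomputable def LX (X : Finset ℕ) : LinExt (PP k n) where
  le a b := key X a ≤ key X b
  refl a := le_refl _
  trans a b c := le_trans
  antisymm a b h h' := key_inj X (le_antisymm h h')
  total a b := le_total _ _
  ext a b h := by
    rcases (ff_mono X a b h).lt_or_eq with h1 | h1
    · exact Prod.Lex.toLex_le_toLex.2 (Or.inl h1)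
    · exact Prod.Lex.toLex_le_toLex.2 (Or.inr ⟨h1, toLinearExtension.monotone h⟩)

theorem LX_gt (X : Finset ℕ) (a b : PP k n) (h : ff X b < ff X a) : (LX X).gt a b := by
  refine ⟨Prod.Lex.toLex_le_toLex.2 (Or.inl h), ?_⟩
  rintro rfl
  exact lt_irrefl _ h

theorem ff_lt (X : Finset ℕ) (a b : PP k n) (x : ℕ) (hxa : x ∈ a.1) (hxb : x ∉ b.1) (hxX : x ∈ X)
    (hB : Disjoint (b.1.filter (fun y => x < y)) X) : ff X b < ff X a := by
  have hx1 : 1 ≤ x := (mem_Icc.1 (a.2.1 hxa)).1
  have h1 : x ≤ ff X a := le_sup (f := id) (mem_inter.2 ⟨hxa, hxX⟩)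
  refine lt_of_lt_of_le ?_ h1
  unfold ff
  rw [Finset.sup_lt_iff (by exact hx1)]
  intro y hy
  rw [mem_inter] at hy
  simp only [id]
  by_contra h
  push Not at h
  rcases h.lt_or_eq with h2 | h2
  · exact disjoint_left.1 hB (mem_filter.2 ⟨hy.1, h2⟩) hy.2
  · rw [← h2] at hy; exact hxb hy.1

/-- binomial weight -/
noncomputable def bw (n : ℕ) (p : ℝ) (X : Finset ℕ) : ℝ := p ^ X.card * (1 - p) ^ (n - X.card)

theorem bw_sum (p : ℝ) : ∑ X ∈ (Icc 1 n).powerset, bw n p X = 1 := by
  have h := Finset.sum_pow_mul_eq_add_pow p (1 - p) (Icc 1 n)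
  rw [Nat.card_Icc] at h
  simp only [Nat.add_sub_cancel] at h
  unfold bw
  rw [h]; ring_nf

theorem bw_event (p : ℝ) (hp0 : 0 ≤ p) (hp1 : p ≤ 1) (x : ℕ) (hx : x ∈ Icc 1 n) (B : Finset ℕ) (hB : B ⊆ Icc 1 n)
    (hxB : x ∉ B) (hBk : B.card ≤ k) :
    p * (1 - p) ^ k ≤ ∑ X ∈ (Icc 1 n).powerset.filter (fun X => x ∈ X ∧ Disjoint B X), bw n p X := by
  have h1p : 0 ≤ 1 - p := by linarith
  set R : Finset ℕ := Icc 1 n \ insert x B with hR
  have hins : insert x B ⊆ Icc 1 n := insert_subset hx hB
  have hRc : R.card = n - (B.card + 1) := by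
    rw [hR, card_sdiff_of_subset hins, Nat.card_Icc, card_insert_of_notMem hxB]; simp
  have hcn : B.card + 1 ≤ n := by
    have := card_le_card hins
    rw [card_insert_of_notMem hxB, Nat.card_Icc] at this
    omega
  have himg : R.powerset.image (fun Y => insert x Y) ⊆ (Icc 1 n).powerset.filter (fun X => x ∈ X ∧ Disjoint B X) := by
    intro X hX
    obtain ⟨Y, hY, rfl⟩ := mem_image.1 hX
    rw [mem_powerset] at hY
    rw [mem_filter, mem_powerset]
    refine ⟨insert_subset hx (hY.trans sdiff_subset), mem_insert_self _ _, ?_⟩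
    rw [disjoint_insert_right]
    refine ⟨hxB, ?_⟩
    rw [disjoint_left]
    intro y hy hyY
    have := hY hyY
    rw [hR, mem_sdiff] at this
    exact this.2 (mem_insert_of_mem hy)
  have hnn : ∀ X, 0 ≤ bw n p X := fun X => by unfold bw; positivity
  refine le_trans ?_ (sum_le_sum_of_subset_of_nonneg himg (fun X _ _ => hnn X))
  have hinj : Set.InjOn (fun Y : Finset ℕ => insert x Y) (R.powerset : Set (Finset ℕ)) := by
    intro Y hY Y' hY' h
    have hx1 : x ∉ Y := fun h' => by
      have := (mem_powerset.1 (mem_coe.1 hY)) h'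
      rw [hR, mem_sdiff] at this
      exact this.2 (mem_insert_self _ _)
    have hx2 : x ∉ Y' := fun h' => by
      have := (mem_powerset.1 (mem_coe.1 hY')) h'
      rw [hR, mem_sdiff] at this
      exact this.2 (mem_insert_self _ _)
    have := congrArg (fun Z : Finset ℕ => Z.erase x) h
    simpa [erase_insert hx1, erase_insert hx2] using this
  rw [sum_image hinj]
  have h3 : ∀ Y ∈ R.powerset, bw n p (insert x Y) = (p * (1 - p) ^ B.card) * (p ^ Y.card * (1 - p) ^ (R.card - Y.card)) := by
    intro Y hY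
    have hYR := mem_powerset.1 hY
    have hx1 : x ∉ Y := fun h' => by
      have := hYR h'
      rw [hR, mem_sdiff] at this
      exact this.2 (mem_insert_self _ _)
    have hc := card_le_card hYR
    unfold bw
    rw [card_insert_of_notMem hx1]
    have e : n - (Y.card + 1) = B.card + (R.card - Y.card) := by omega
    rw [e, pow_add, pow_succ]; ring
  rw [sum_congr rfl h3, ← mul_sum, Finset.sum_pow_mul_eq_add_pow]
  have : p + (1 - p) = 1 := by ring
  rw [this, one_pow, mul_one]
  exact mul_le_mul_of_nonneg_left (pow_le_pow_of_le_one h1p (by linarith) hBk) hp0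

end

open Classical in
/-- upper bound with an arbitrary bias -/
theorem realizer (k n : ℕ) (p : ℝ) (hp0 : 0 < p) (hp1 : p < 1) :
    ∃ w : LinExt (PP k n) → ℝ, IsRealizer w ∧ ∑ L, w L = 1 / (p * (1 - p) ^ k) := by
  have h1p : 0 < 1 - p := by linarith
  set c : ℝ := 1 / (p * (1 - p) ^ k) with hc
  have hcpos : 0 < c := by positivity
  have hnn : ∀ X, 0 ≤ bw n p X := fun X => by unfold bw; positivity
  refine ⟨fun L => c * ∑ X ∈ (Icc 1 n).powerset.filter (fun X => LX X = L), bw n p X, ⟨?_, ?_⟩, ?_⟩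
  · intro L
    exact mul_nonneg hcpos.le (sum_nonneg (fun X _ => hnn X))
  · intro a b hab
    rw [← mul_sum]
    have hsum : ∑ L ∈ univ.filter (fun L : LinExt (PP k n) => L.gt a b), ∑ X ∈ (Icc 1 n).powerset.filter (fun X => LX X = L), bw n p X
        = ∑ X ∈ (Icc 1 n).powerset.filter (fun X => (LX X : LinExt (PP k n)).gt a b), bw n p X := by
      rw [← sum_fiberwise_of_maps_to (s := (Icc 1 n).powerset.filter (fun X => (LX X : LinExt (PP k n)).gt a b))
        (t := univ.filter (fun L : LinExt (PP k n) => L.gt a b)) (g := fun X => LX X)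
        (fun X hX => mem_filter.2 ⟨mem_univ _, (mem_filter.1 hX).2⟩)]
      apply sum_congr rfl
      intro L hL
      apply sum_congr _ (fun _ _ => rfl)
      ext X
      simp only [mem_filter]
      constructor
      · rintro ⟨h1, h2⟩
        exact ⟨⟨h1, by rw [h2]; exact (mem_filter.1 hL).2⟩, h2⟩
      · rintro ⟨⟨h1, _⟩, h2⟩
        exact ⟨h1, h2⟩
    rw [hsum]
    obtain ⟨x, hxa, hxb⟩ : ∃ x, x ∈ a.1 ∧ x ∉ b.1 := by
      by_contra h
      push Not at h
      exact hab.1 (fun x hx => h x hx)
    have hxI := a.2.1 hxa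
    have hle := bw_event (k := k) (n := n) p hp0.le hp1.le x hxI (b.1.filter (fun y => x < y))
      ((filter_subset _ _).trans b.2.1) (by simp) (few_above b.2 hxb (mem_Icc.1 hxI).1)
    have hsub : (Icc 1 n).powerset.filter (fun X => x ∈ X ∧ Disjoint (b.1.filter (fun y => x < y)) X)
        ⊆ (Icc 1 n).powerset.filter (fun X => (LX X : LinExt (PP k n)).gt a b) := by
      intro X hX
      rw [mem_filter] at hX ⊢
      exact ⟨hX.1, LX_gt X a b (ff_lt X a b x hxa hxb hX.2.1 hX.2.2)⟩
    have h2 := hle.trans (sum_le_sum_of_subset_of_nonneg hsub (fun X _ _ => hnn X))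
    have h3 := mul_le_mul_of_nonneg_left h2 hcpos.le
    refine le_trans (le_of_eq ?_) h3
    rw [hc]
    have : 0 < p * (1 - p) ^ k := by positivity
    field_simp
  · rw [← mul_sum]
    have hsum : ∑ L : LinExt (PP k n), ∑ X ∈ (Icc 1 n).powerset.filter (fun X => LX X = L), bw n p X
        = ∑ X ∈ (Icc 1 n).powerset, bw n p X :=
      sum_fiberwise_of_maps_to (s := (Icc 1 n).powerset) (t := univ) (g := fun X => (LX X : LinExt (PP k n)))
        (fun X _ => mem_univ _) (fun X => bw n p X)
    rw [hsum, bw_sum, mul_one]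

end Pool.Agent.X145.FD
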