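import Pool.Agent.X145.FD.Lower

/-! The limit of the fractional dimensions. -/

set_option autoImplicit false
set_option linter.unusedVariables false
set_option linter.unusedSectionVars false

namespace Pool.Agent.X145.FD

open Finset Filter Topology

/-- `k^k / (k+1)^(k+1)` -/
noncomputable def ck (k : ℕ) : ℝ := (k:ℝ) ^ k / ((k:ℝ) + 1) ^ (k + 1)

theorem ck_pos (k : ℕ) (hk : 1 ≤ k) : 0 < ck k := by
  unfold ck
  have : (0:ℝ) < k := by exact_mod_cast hk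
  positivity

theorem amgm_form (k : ℕ) (hk : 1 ≤ k) (y : ℝ) :
    ((1 + y) / ((k:ℝ) + 1)) * (1 - (1 + y) / ((k:ℝ) + 1)) ^ k = ck k * ((1 + y) * (1 - y / k) ^ k) := by
  have hk0 : (0:ℝ) < k := by exact_mod_cast hk
  have e : 1 - (1 + y) / ((k:ℝ) + 1) = (k / ((k:ℝ) + 1)) * (1 - y / k) := by field_simp; ring
  rw [e, mul_pow, div_pow]
  unfold ck
  rw [pow_succ]
  field_simp

theorem pow_bound (k : ℕ) (hk : 1 ≤ k) (y : ℝ) (hy : y ≤ k) : (1 - y / k) ^ k ≤ Real.exp (-y) := by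
  have hk0 : (0:ℝ) < k := by exact_mod_cast hk
  have h1 : 0 ≤ 1 - y / k := by
    rw [sub_nonneg, div_le_one hk0]; exact hy
  have h2 : 1 - y / k ≤ Real.exp (-(y / k)) := by linarith [Real.add_one_le_exp (-(y / k))]
  calc (1 - y / k) ^ k ≤ (Real.exp (-(y / k))) ^ k := pow_le_pow_left₀ h1 h2 k
    _ = Real.exp (-y) := by rw [← Real.exp_nat_mul]; congr 1; field_simp

theorem amgm (k : ℕ) (hk : 1 ≤ k) (μ : ℝ) (h0 : 0 ≤ μ) (h1 : μ ≤ 1) : μ * (1 - μ) ^ k ≤ ck k := by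
  have hk0 : (0:ℝ) < k := by exact_mod_cast hk
  set y : ℝ := ((k:ℝ) + 1) * μ - 1 with hy
  have e : μ = (1 + y) / ((k:ℝ) + 1) := by rw [hy]; field_simp; ring
  have hyk : y ≤ k := by rw [hy]; nlinarith
  have hy1 : 0 ≤ 1 + y := by rw [hy]; nlinarith
  rw [e, amgm_form k hk y]
  have h2 : (1 + y) * (1 - y / k) ^ k ≤ 1 := by
    have h3 := pow_bound k hk y hyk
    have h4 : 1 + y ≤ Real.exp y := by linarith [Real.add_one_le_exp y]
    calc (1 + y) * (1 - y / k) ^ k ≤ Real.exp y * Real.exp (-y) := by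
          apply mul_le_mul h4 h3 _ (Real.exp_pos _).le
          apply pow_nonneg
          rw [sub_nonneg, div_le_one hk0]; exact hyk
      _ = 1 := by rw [← Real.exp_add]; simp
  have := mul_le_mul_of_nonneg_left h2 (ck_pos k hk).le
  linarith

theorem ck_strict (k : ℕ) (hk : 2 ≤ k) : 1 / ck k < 2 ^ (k + 1) := by
  have hk1 : 1 ≤ k := by omega
  have hk0 : (0:ℝ) < k := by exact_mod_cast hk1
  have hk2 : (2:ℝ) ≤ k := by exact_mod_cast hk
  set y : ℝ := ((k:ℝ) - 1) / 2 with hy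
  have hyk : y ≤ k := by rw [hy]; linarith
  have hf := amgm_form k hk1 y
  have e : (1 + y) / ((k:ℝ) + 1) = 1 / 2 := by rw [hy]; field_simp; ring
  rw [e] at hf
  have h2 : (1 + y) * (1 - y / k) ^ k < 1 := by
    have h3 := pow_bound k hk1 y hyk
    have h4 : 1 + y < Real.exp y := by
      have : y ≠ 0 := by rw [hy]; intro h; linarith
      linarith [Real.add_one_lt_exp this]
    calc (1 + y) * (1 - y / k) ^ k ≤ (1 + y) * Real.exp (-y) :=
          mul_le_mul_of_nonneg_left h3 (by rw [hy]; linarith)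
      _ < Real.exp y * Real.exp (-y) := mul_lt_mul_of_pos_right h4 (Real.exp_pos _)
      _ = 1 := by rw [← Real.exp_add]; simp
  have h5 : (1:ℝ) / 2 * (1 - 1 / 2) ^ k < ck k := by
    rw [hf]
    have := mul_lt_mul_of_pos_left h2 (ck_pos k hk1)
    linarith
  have h6 : (1:ℝ) / 2 * (1 - 1 / 2) ^ k = 1 / 2 ^ (k + 1) := by
    rw [show (1:ℝ) - 1 / 2 = 1 / 2 by norm_num, ← pow_succ']; rw [one_div_pow]
  rw [h6] at h5
  rw [div_lt_iff₀ (ck_pos k hk1)]
  rw [div_lt_iff₀ (by positivity)] at h5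
  linarith

theorem prod_diff (t : Finset ℕ) (a b : ℕ → ℝ) (ha : ∀ i ∈ t, 0 ≤ a i ∧ a i ≤ 1) (hb : ∀ i ∈ t, 0 ≤ b i ∧ b i ≤ 1) :
    ∏ i ∈ t, a i ≤ ∏ i ∈ t, b i + ∑ i ∈ t, |a i - b i| := by
  induction t using Finset.induction_on with
  | empty => simp
  | insert j t hj ih =>
    rw [prod_insert hj, prod_insert hj, sum_insert hj]
    have h1 := ih (fun i hi => ha i (mem_insert_of_mem hi)) (fun i hi => hb i (mem_insert_of_mem hi))
    have haj := ha j (mem_insert_self _ _)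
    have hbj := hb j (mem_insert_self _ _)
    have hpa0 : 0 ≤ ∏ i ∈ t, a i := prod_nonneg (fun i hi => (ha i (mem_insert_of_mem hi)).1)
    have hpa1 : ∏ i ∈ t, a i ≤ 1 := prod_le_one (fun i hi => (ha i (mem_insert_of_mem hi)).1) (fun i hi => (ha i (mem_insert_of_mem hi)).2)
    have hs : 0 ≤ ∑ i ∈ t, |a i - b i| := sum_nonneg (fun _ _ => abs_nonneg _)
    have h2 : a j * ∏ i ∈ t, a i ≤ b j * ∏ i ∈ t, a i + |a j - b j| := by
      have h3 : (a j - b j) * ∏ i ∈ t, a i ≤ |a j - b j| * 1 :=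
        mul_le_mul (le_abs_self _) hpa1 hpa0 (abs_nonneg _)
      linarith
    have h4 : b j * ∏ i ∈ t, a i ≤ b j * (∏ i ∈ t, b i) + ∑ i ∈ t, |a i - b i| := by
      have h5 := mul_le_mul_of_nonneg_left h1 hbj.1
      have h6 : b j * ∑ i ∈ t, |a i - b i| ≤ 1 * ∑ i ∈ t, |a i - b i| := mul_le_mul_of_nonneg_right hbj.2 hs
      linarith
    linarith

/-- the product of the densities -/
noncomputable def gp (k : ℕ) (χ : ℕ → ℝ) (s a i : ℕ) : ℝ :=
  if i = 0 then DD (k + 1) χ s (a * (k + 1) + i) else 1 - DD (k + 1) χ s (a * (k + 1) + i)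

theorem gp_prod (k : ℕ) (hk : 1 ≤ k) (χ : ℕ → ℝ) (h0 : ∀ x, 0 ≤ χ x) (h1 : ∀ x, χ x ≤ 1) (s a : ℕ) (η : ℝ) (hη : 0 < η) :
    ∏ i ∈ range (k + 1), gp k χ s a i ≤ ck k + η + (((k:ℝ) + 1) ^ 2 / (4 * η)) * VV (k + 1) χ s a := by
  have hm : 0 < k + 1 := by omega
  have hd := fun b => DD_range (k + 1) hm χ h0 h1 s b
  set μ := DD (k + 1) χ (s + 1) a with hμ
  have hμr : 0 ≤ μ ∧ μ ≤ 1 := DD_range (k + 1) hm χ h0 h1 (s + 1) a
  have hμe := DD_succ (k + 1) hm χ s a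
  rw [← hμ] at hμe
  push_cast at hμe
  have hK : (0:ℝ) < (k:ℝ) + 1 := by positivity
  have hp := prod_diff (range (k + 1)) (gp k χ s a) (fun i => if i = 0 then μ else 1 - μ)
    (fun i _ => by
      unfold gp
      have := hd (a * (k + 1) + i)
      split_ifs <;> constructor <;> linarith)
    (fun i _ => by
      split_ifs <;> constructor <;> linarith)
  have e1 : ∏ i ∈ range (k + 1), (if i = 0 then μ else 1 - μ) = μ * (1 - μ) ^ k := by
    rw [prod_range_succ']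
    simp [mul_comm]
  rw [e1] at hp
  have e2 : ∑ i ∈ range (k + 1), |gp k χ s a i - (if i = 0 then μ else 1 - μ)|
      = ∑ i ∈ range (k + 1), |DD (k + 1) χ s (a * (k + 1) + i) - μ| := by
    apply sum_congr rfl
    intro i _
    unfold gp
    split_ifs with h
    · rfl
    · rw [show 1 - DD (k + 1) χ s (a * (k + 1) + i) - (1 - μ) = -(DD (k + 1) χ s (a * (k + 1) + i) - μ) by ring, abs_neg]
  rw [e2] at hp
  have h3 : ∀ t : ℝ, |t| ≤ η / ((k:ℝ) + 1) + ((k:ℝ) + 1) * t ^ 2 / (4 * η) := by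
    intro t
    have h4 : 0 ≤ (2 * η - ((k:ℝ) + 1) * |t|) ^ 2 := sq_nonneg _
    have h5 : η / ((k:ℝ) + 1) + ((k:ℝ) + 1) * t ^ 2 / (4 * η) - |t|
        = (2 * η - ((k:ℝ) + 1) * |t|) ^ 2 / (4 * η * ((k:ℝ) + 1)) := by
      rw [← sq_abs t]; field_simp; ring
    have h6 : 0 ≤ (2 * η - ((k:ℝ) + 1) * |t|) ^ 2 / (4 * η * ((k:ℝ) + 1)) := by positivity
    linarith
  have h4 : ∑ i ∈ range (k + 1), |DD (k + 1) χ s (a * (k + 1) + i) - μ|
      ≤ η + (((k:ℝ) + 1) ^ 2 / (4 * η)) * VV (k + 1) χ s a := by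
    refine (sum_le_sum (fun i _ => h3 _)).trans (le_of_eq ?_)
    rw [sum_add_distrib, sum_const, card_range, nsmul_eq_mul]
    have e5 : ∑ i ∈ range (k + 1), ((k:ℝ) + 1) * (DD (k + 1) χ s (a * (k + 1) + i) - μ) ^ 2 / (4 * η)
        = (((k:ℝ) + 1) ^ 2 / (4 * η)) * VV (k + 1) χ s a := by
      unfold VV
      rw [← hμ]
      have e6 : ∀ i, ((k:ℝ) + 1) * (DD (k + 1) χ s (a * (k + 1) + i) - μ) ^ 2 / (4 * η)
          = (((k:ℝ) + 1) / (4 * η)) * (DD (k + 1) χ s (a * (k + 1) + i) ^ 2)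
            - (((k:ℝ) + 1) / (4 * η)) * (2 * μ) * DD (k + 1) χ s (a * (k + 1) + i) + (((k:ℝ) + 1) / (4 * η)) * μ ^ 2 := by
        intro i; ring
      rw [sum_congr rfl (fun i _ => e6 i), sum_add_distrib, sum_sub_distrib, ← mul_sum, ← mul_sum, sum_const, card_range,
        nsmul_eq_mul]
      have e7 : ∑ i ∈ range (k + 1), DD (k + 1) χ s (a * (k + 1) + i) = μ * ((k:ℝ) + 1) := by
        rw [hμe]; field_simp
      rw [e7]
      push_cast
      field_simp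
      ring
    rw [e5]
    push_cast
    field_simp
  have h5 := amgm k hk μ hμr.1 hμr.2
  linarith

end Pool.Agent.X145.FD
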