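import Pool.Agent.X145.FD.Final

/-! Averaging over scales, and the limit. -/

set_option autoImplicit false
set_option linter.unusedVariables false
set_option linter.unusedSectionVars false

namespace Pool.Agent.X145.FD

open Finset Filter Topology

section
variable {k n : ℕ}

open Classical in
/-- indicator of the heads -/
noncomputable def chi (hk : 1 ≤ k) (L : LinExt (PP k n)) (x : ℕ) : ℝ := if Head hk L x then 1 else 0

theorem chi_pos (hk : 1 ≤ k) (L : LinExt (PP k n)) (x : ℕ) (h : Head hk L x) : chi hk L x = 1 := by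
  unfold chi; exact if_pos h

theorem chi_neg (hk : 1 ≤ k) (L : LinExt (PP k n)) (x : ℕ) (h : ¬ Head hk L x) : chi hk L x = 0 := by
  unfold chi; exact if_neg h

theorem chi_nonneg (hk : 1 ≤ k) (L : LinExt (PP k n)) (x : ℕ) : 0 ≤ chi hk L x := by
  unfold chi; split_ifs <;> norm_num

theorem chi_le (hk : 1 ≤ k) (L : LinExt (PP k n)) (x : ℕ) : chi hk L x ≤ 1 := by
  unfold chi; split_ifs <;> norm_num

/-- the point of index `i` with offset `v` -/
def pt (k s a : ℕ) (i v : ℕ) : ℕ := (a * (k + 1) + i) * (k + 1) ^ s + v + 1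

theorem pt_lt (k s a i i' v v' : ℕ) (hi : i < i') (hv : v < (k + 1) ^ s) : pt k s a i v < pt k s a i' v' := by
  unfold pt
  have h1 : (a * (k + 1) + i + 1) * (k + 1) ^ s ≤ (a * (k + 1) + i') * (k + 1) ^ s := Nat.mul_le_mul_right _ (by omega)
  have h2 : (a * (k + 1) + i + 1) * (k + 1) ^ s = (a * (k + 1) + i) * (k + 1) ^ s + (k + 1) ^ s := by ring
  omega

theorem pt_le (k T s a i v : ℕ) (hs : s < T) (ha : a < (k + 1) ^ (T - (s + 1))) (hi : i < k + 1) (hv : v < (k + 1) ^ s) :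
    pt k s a i v ≤ (k + 1) ^ T := by
  unfold pt
  have h1 : (a * (k + 1) + i + 1) * (k + 1) ^ s ≤ ((k + 1) ^ (T - (s + 1)) * (k + 1)) * (k + 1) ^ s := by
    apply Nat.mul_le_mul_right
    have : (a + 1) * (k + 1) ≤ (k + 1) ^ (T - (s + 1)) * (k + 1) := Nat.mul_le_mul_right _ (by omega)
    nlinarith
  have h2 : (a * (k + 1) + i + 1) * (k + 1) ^ s = (a * (k + 1) + i) * (k + 1) ^ s + (k + 1) ^ s := by ring
  have h3 : ((k + 1) ^ (T - (s + 1)) * (k + 1)) * (k + 1) ^ s = (k + 1) ^ T := by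
    rw [mul_assoc, ← pow_succ', ← pow_add]
    congr 1
    omega
  omega

/-- factor of the product -/
noncomputable def fac (hk : 1 ≤ k) (L : LinExt (PP k n)) (s a i v : ℕ) : ℝ :=
  if i = 0 then chi hk L (pt k s a i v) else 1 - chi hk L (pt k s a i v)

open Classical in
/-- one test tuple -/
theorem one_le (hk : 1 ≤ k) (w : LinExt (PP k n) → ℝ) (hw : IsRealizer w) (T s a : ℕ) (hs : s < T)
    (ha : a < (k + 1) ^ (T - (s + 1))) (hn : (k + 1) ^ T ≤ n) (p : Fin (k + 1) → ℕ) (hp : ∀ i, p i < (k + 1) ^ s) :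
    1 ≤ ∑ L, w L * ∏ i : Fin (k + 1), fac hk L s a i (p i) := by
  set x := pt k s a 0 (p 0) with hx
  set K : Finset ℕ := (univ : Finset (Fin k)).image (fun j : Fin k => pt k s a ((j : ℕ) + 1) (p j.succ)) with hKdef
  have hxI : x ∈ Icc 1 n := by
    rw [mem_Icc]
    refine ⟨by rw [hx]; unfold pt; omega, (pt_le k T s a 0 (p 0) hs ha (by omega) (hp 0)).trans hn⟩
  have hK : K ⊆ Ioc x n := by
    intro y hy
    obtain ⟨j, _, rfl⟩ := mem_image.1 hy
    rw [mem_Ioc]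
    exact ⟨pt_lt k s a 0 (j + 1) (p 0) _ (by omega) (hp 0),
      (pt_le k T s a (j + 1) _ hs ha (by omega) (hp _)).trans hn⟩
  have hKc : K.card = k := by
    rw [hKdef, card_image_of_injective, card_univ, Fintype.card_fin]
    intro j j' h
    by_contra hne
    rcases lt_or_gt_of_ne (fun h' : (j : ℕ) = j' => hne (Fin.ext h')) with h1 | h1
    · have := pt_lt k s a (j + 1) (j' + 1) (p j.succ) (p j'.succ) (by omega) (hp _)
      simp only at h
      omega
    · have := pt_lt k s a (j' + 1) (j + 1) (p j'.succ) (p j.succ) (by omega) (hp _)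
      simp only at h
      omega
  have h1 := hw.2 _ _ (incomp hk x hxI K hK hKc)
  refine h1.trans ?_
  rw [sum_filter]
  apply sum_le_sum
  intro L _
  have hfnn : ∀ i : Fin (k + 1), 0 ≤ fac hk L s a i (p i) := by
    intro i
    unfold fac
    have h1 := chi_nonneg hk L (pt k s a i (p i))
    have h2 := chi_le hk L (pt k s a i (p i))
    split_ifs <;> linarith
  split_ifs with h
  · have hprod : ∏ i : Fin (k + 1), fac hk L s a i (p i) = 1 := by
      apply prod_eq_one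
      intro i _
      refine Fin.cases ?_ (fun j => ?_) i
      · have e : fac hk L s a ((0 : Fin (k + 1)) : ℕ) (p 0) = chi hk L x := if_pos rfl
        rw [e]
        exact chi_pos hk L x ⟨hxI, K, hK, hKc, h⟩
      · have e : fac hk L s a ((j.succ : Fin (k + 1)) : ℕ) (p j.succ) = 1 - chi hk L (pt k s a ((j : ℕ) + 1) (p j.succ)) :=
          if_neg (by simp)
        rw [e, chi_neg hk L _ (not_head hk L x hxI K hK hKc h _ (by
            rw [hKdef, mem_image]
            exact ⟨j, mem_univ _, rfl⟩))]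
        norm_num
    rw [hprod, mul_one]
  · exact mul_nonneg (hw.1 L) (prod_nonneg (fun i _ => hfnn i))

theorem fac_sum (hk : 1 ≤ k) (L : LinExt (PP k n)) (s a i : ℕ) :
    ∑ v ∈ range ((k + 1) ^ s), fac hk L s a i v = ((k:ℝ) + 1) ^ s * gp k (chi hk L) s a i := by
  have hm0 : ((k:ℝ) + 1) ^ s ≠ 0 := by positivity
  unfold fac gp DD pt
  push_cast
  split_ifs with h
  · field_simp
  · rw [sum_sub_distrib, sum_const, card_range, nsmul_eq_mul]
    push_cast
    field_simp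

theorem block_ineq (hk : 1 ≤ k) (w : LinExt (PP k n) → ℝ) (hw : IsRealizer w) (T s a : ℕ) (hs : s < T)
    (ha : a < (k + 1) ^ (T - (s + 1))) (hn : (k + 1) ^ T ≤ n) :
    1 ≤ ∑ L, w L * ∏ i ∈ range (k + 1), gp k (chi hk L) s a i := by
  have h1 : ∀ p ∈ Fintype.piFinset (fun _ : Fin (k + 1) => range ((k + 1) ^ s)),
      (1:ℝ) ≤ ∑ L, w L * ∏ i : Fin (k + 1), fac hk L s a i (p i) := by
    intro p hp
    rw [Fintype.mem_piFinset] at hp
    exact one_le hk w hw T s a hs ha hn p (fun i => mem_range.1 (hp i))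
  have h2 := sum_le_sum h1
  rw [sum_comm] at h2
  simp only [sum_const, nsmul_eq_mul, mul_one, ← mul_sum] at h2
  rw [Fintype.card_piFinset] at h2
  simp only [card_range, prod_const, card_univ, Fintype.card_fin] at h2
  have h3 : ∀ L : LinExt (PP k n), ∑ p ∈ Fintype.piFinset (fun _ : Fin (k + 1) => range ((k + 1) ^ s)),
      ∏ i : Fin (k + 1), fac hk L s a i (p i) = ((((k:ℝ) + 1) ^ s) ^ (k + 1)) * ∏ i ∈ range (k + 1), gp k (chi hk L) s a i := by
    intro L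
    rw [← prod_univ_sum (fun _ : Fin (k + 1) => range ((k + 1) ^ s)) (fun i v => fac hk L s a i v)]
    rw [prod_congr rfl (fun (i : Fin (k + 1)) _ => fac_sum hk L s a i), prod_mul_distrib, prod_const, card_univ, Fintype.card_fin,
      prod_range]
  simp only [h3] at h2
  have h4 : ∑ L, w L * (((((k:ℝ) + 1) ^ s) ^ (k + 1)) * ∏ i ∈ range (k + 1), gp k (chi hk L) s a i)
      = ((((k:ℝ) + 1) ^ s) ^ (k + 1)) * ∑ L, w L * ∏ i ∈ range (k + 1), gp k (chi hk L) s a i := by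
    rw [mul_sum]
    apply sum_congr rfl
    intro L _
    ring
  rw [h4] at h2
  push_cast at h2
  have h5 : (0:ℝ) < (((k:ℝ) + 1) ^ s) ^ (k + 1) := by positivity
  exact le_of_mul_le_mul_left (by rw [mul_one]; exact h2) h5

theorem QQ_range (m T : ℕ) (hm : 0 < m) (χ : ℕ → ℝ) (h0 : ∀ x, 0 ≤ χ x) (h1 : ∀ x, χ x ≤ 1) (s : ℕ) :
    0 ≤ QQ m T χ s ∧ QQ m T χ s ≤ 1 := by
  have hm0 : (0:ℝ) < (m:ℝ) ^ (T - s) := by positivity
  unfold QQ
  constructor
  · exact div_nonneg (sum_nonneg (fun _ _ => sq_nonneg _)) hm0.le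
  · rw [div_le_one hm0]
    calc _ ≤ ∑ _u ∈ range (m ^ (T - s)), (1:ℝ) := sum_le_sum (fun b _ => pow_le_one₀ (DD_range m hm χ h0 h1 s b).1 (DD_range m hm χ h0 h1 s b).2)
      _ = (m:ℝ) ^ (T - s) := by simp

theorem scale_ineq (hk : 1 ≤ k) (w : LinExt (PP k n) → ℝ) (hw : IsRealizer w) (T s : ℕ) (hs : s < T)
    (hn : (k + 1) ^ T ≤ n) (η : ℝ) (hη : 0 < η) :
    1 ≤ ∑ L, w L * (ck k + η + (((k:ℝ) + 1) ^ 2 / (4 * η)) * (QQ (k + 1) T (chi hk L) s - QQ (k + 1) T (chi hk L) (s + 1))) := by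
  set M := (k + 1) ^ (T - (s + 1)) with hM
  have hM0 : (0:ℝ) < M := by rw [hM]; positivity
  have h1 : ∀ a ∈ range M, (1:ℝ) ≤ ∑ L, w L * (ck k + η + (((k:ℝ) + 1) ^ 2 / (4 * η)) * VV (k + 1) (chi hk L) s a) := by
    intro a ha
    refine (block_ineq hk w hw T s a hs (mem_range.1 ha) hn).trans ?_
    apply sum_le_sum
    intro L _
    exact mul_le_mul_of_nonneg_left (gp_prod k hk (chi hk L) (chi_nonneg hk L) (chi_le hk L) s a η hη) (hw.1 L)
  have h2 := sum_le_sum h1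
  rw [sum_comm] at h2
  simp only [sum_const, card_range, nsmul_eq_mul, mul_one, ← mul_sum, sum_add_distrib] at h2
  have h3 : ∑ L, w L * ((M:ℝ) * (ck k + η) + (((k:ℝ) + 1) ^ 2 / (4 * η)) * ∑ a ∈ range M, VV (k + 1) (chi hk L) s a)
      = (M:ℝ) * ∑ L, w L * (ck k + η + (((k:ℝ) + 1) ^ 2 / (4 * η)) * (QQ (k + 1) T (chi hk L) s - QQ (k + 1) T (chi hk L) (s + 1))) := by
    rw [mul_sum]
    apply sum_congr rfl
    intro L _
    rw [QQ_step (k + 1) T (by omega) (chi hk L) s hs]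
    rw [← hM]
    have e : (((k + 1 : ℕ) : ℝ)) ^ (T - (s + 1)) = (M:ℝ) := by rw [hM]; push_cast; ring
    rw [e]
    field_simp
  rw [h3] at h2
  exact le_of_mul_le_mul_left (by rw [mul_one]; exact h2) hM0

/-- lower bound for every fractional realizer -/
theorem realizer_ge (hk : 1 ≤ k) (w : LinExt (PP k n) → ℝ) (hw : IsRealizer w) (T : ℕ) (hT : 0 < T)
    (hn : (k + 1) ^ T ≤ n) (η : ℝ) (hη : 0 < η) :
    1 ≤ (∑ L, w L) * (ck k + η + (((k:ℝ) + 1) ^ 2 / (4 * η)) / T) := by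
  have hT0 : (0:ℝ) < T := by exact_mod_cast hT
  have h1 := sum_le_sum (s := range T) (fun s hs => scale_ineq hk w hw T s (mem_range.1 hs) hn η hη)
  rw [sum_comm] at h1
  simp only [sum_const, card_range, nsmul_eq_mul, mul_one, ← mul_sum, sum_add_distrib, sum_range_sub'] at h1
  have h2 : ∑ L, w L * (T * (ck k + η) + (((k:ℝ) + 1) ^ 2 / (4 * η)) * (QQ (k + 1) T (chi hk L) 0 - QQ (k + 1) T (chi hk L) T))
      ≤ ∑ L, w L * (T * (ck k + η) + (((k:ℝ) + 1) ^ 2 / (4 * η))) := by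
    apply sum_le_sum
    intro L _
    apply mul_le_mul_of_nonneg_left _ (hw.1 L)
    have h3 := (QQ_range (k + 1) T (by omega) (chi hk L) (chi_nonneg hk L) (chi_le hk L) 0).2
    have h4 := (QQ_range (k + 1) T (by omega) (chi hk L) (chi_nonneg hk L) (chi_le hk L) T).1
    have h5 : (((k:ℝ) + 1) ^ 2 / (4 * η)) * (QQ (k + 1) T (chi hk L) 0 - QQ (k + 1) T (chi hk L) T) ≤ (((k:ℝ) + 1) ^ 2 / (4 * η)) * 1 := by
      apply mul_le_mul_of_nonneg_left _ (by positivity)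
      linarith
    linarith
  have h3 := h1.trans h2
  rw [← sum_mul] at h3
  have h4 : (T:ℝ) * 1 ≤ T * ((∑ L, w L) * (ck k + η + (((k:ℝ) + 1) ^ 2 / (4 * η)) / T)) := by
    rw [mul_one]
    refine h3.trans (le_of_eq ?_)
    field_simp
  exact le_of_mul_le_mul_left h4 hT0

end

theorem exists_incomp (k n : ℕ) (hk : 1 ≤ k) (hn : k + 1 ≤ n) : ∃ a b : PP k n, Incomp a b := by
  have hx : 1 ∈ Icc 1 n := mem_Icc.2 (by omega)
  exact ⟨_, _, incomp hk 1 hx (Ioc 1 (k + 1)) (Ioc_subset_Ioc_right hn) (by simp)⟩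

theorem fdim_le (k n : ℕ) (hk : 1 ≤ k) (hn : k + 1 ≤ n) : fdim (PP k n) ≤ 1 / ck k := by
  have hk0 : (0:ℝ) < k := by exact_mod_cast hk
  obtain ⟨a, b, hab⟩ := exists_incomp k n hk hn
  obtain ⟨w, hw, hs⟩ := realizer k n (1 / ((k:ℝ) + 1)) (by positivity) (by rw [div_lt_one (by positivity)]; linarith)
  unfold fdim
  rw [if_neg (by push Not; exact ⟨a, b, hab⟩)]
  have e : 1 / (1 / ((k:ℝ) + 1) * (1 - 1 / ((k:ℝ) + 1)) ^ k) = 1 / ck k := by
    congr 1
    have := amgm_form k hk 0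
    simpa using this
  rw [← e, ← hs]
  apply csInf_le
  · refine ⟨0, ?_⟩
    rintro t ⟨w', hw', rfl⟩
    exact sum_nonneg (fun L _ => hw'.1 L)
  · exact ⟨w, hw, rfl⟩

theorem fdim_ge (k n : ℕ) (hk : 1 ≤ k) (hn1 : k + 1 ≤ n) (T : ℕ) (hT : 0 < T) (hn : (k + 1) ^ T ≤ n) (η : ℝ) (hη : 0 < η) :
    1 / (ck k + η + (((k:ℝ) + 1) ^ 2 / (4 * η)) / T) ≤ fdim (PP k n) := by
  have hT0 : (0:ℝ) < T := by exact_mod_cast hT
  have hk0 : (0:ℝ) < k := by exact_mod_cast hk
  have hc := ck_pos k hk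
  obtain ⟨a, b, hab⟩ := exists_incomp k n hk hn1
  obtain ⟨w, hw, hs⟩ := realizer k n (1 / ((k:ℝ) + 1)) (by positivity) (by rw [div_lt_one (by positivity)]; linarith)
  unfold fdim
  rw [if_neg (by push Not; exact ⟨a, b, hab⟩)]
  refine le_csInf ⟨∑ L, w L, w, hw, rfl⟩ ?_
  rintro t ⟨w', hw', rfl⟩
  rw [div_le_iff₀ (by positivity)]
  exact realizer_ge hk w' hw' T hT hn η hη

/-- the limit -/
theorem fdim_tendsto (k : ℕ) (hk : 1 ≤ k) : Tendsto (fun n => fdim (PP k n)) atTop (𝓝 (1 / ck k)) := by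
  have hc := ck_pos k hk
  have hk0 : (0:ℝ) < k := by exact_mod_cast hk
  rw [Metric.tendsto_atTop]
  intro ε hε
  -- δ with 1/(c+δ) > 1/c - ε
  have hcont : Tendsto (fun δ : ℝ => 1 / (ck k + δ)) (𝓝[>] 0) (𝓝 (1 / (ck k + 0))) := by
    apply Tendsto.mono_left _ nhdsWithin_le_nhds
    apply Tendsto.div tendsto_const_nhds (tendsto_const_nhds.add tendsto_id)
    rw [add_zero]; exact hc.ne'
  rw [add_zero] at hcont
  have hev := hcont.eventually (lt_mem_nhds (show 1 / ck k - ε < 1 / ck k by linarith))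
  obtain ⟨δ, hδ, hδ0⟩ := (hev.and self_mem_nhdsWithin).exists
  have hδ0' : 0 < δ := hδ0
  obtain ⟨T, hT⟩ := exists_nat_gt ((((k:ℝ) + 1) ^ 2 / (4 * (δ / 2))) / (δ / 2))
  have hT0 : (0:ℝ) < T := lt_of_le_of_lt (by positivity) hT
  have hTpos : 0 < T := by exact_mod_cast hT0
  have hTT : (((k:ℝ) + 1) ^ 2 / (4 * (δ / 2))) / T ≤ δ / 2 := by
    rw [div_le_iff₀ hT0]
    rw [div_lt_iff₀ (by positivity)] at hT
    linarith
  refine ⟨max (k + 1) ((k + 1) ^ T), fun n hn => ?_⟩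
  have hn1 : k + 1 ≤ n := (le_max_left _ _).trans hn
  have hn2 : (k + 1) ^ T ≤ n := (le_max_right _ _).trans hn
  have h1 := fdim_le k n hk hn1
  have h2 := fdim_ge k n hk hn1 T hTpos hn2 (δ / 2) (by positivity)
  have h3 : 1 / (ck k + δ) ≤ 1 / (ck k + δ / 2 + (((k:ℝ) + 1) ^ 2 / (4 * (δ / 2))) / T) := by
    apply one_div_le_one_div_of_le (by positivity)
    linarith
  rw [Real.dist_eq, abs_lt]
  constructor <;> linarith

end Pool.Agent.X145.FD
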