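import Pool.Agent.X145.FD.Basic

/-! Lower bound for the fractional dimension of `P(k,n)`. -/

set_option autoImplicit false
set_option linter.unusedVariables false
set_option linter.unusedSectionVars false

namespace Pool.Agent.X145.FD

open Finset

section elem
variable {k n : ℕ}

/-- the singleton `{x}` -/
def sg (hk : 1 ≤ k) (x : ℕ) (hx : x ∈ Icc 1 n) : PP k n := ⟨{x}, by
  refine ⟨singleton_subset_iff.2 hx, fun i hi => ?_⟩
  rw [card_singleton] at hi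
  have : i = 0 := by omega
  subst this
  simp⟩

theorem big_mem (x : ℕ) (hx : x ∈ Icc 1 n) (K : Finset ℕ) (hK : K ⊆ Ioc x n) (hKc : K.card = k) :
    InP k n (Icc 1 (x - 1) ∪ K) := by
  have hx' := mem_Icc.1 hx
  have hdisj : Disjoint (Icc 1 (x - 1)) K := by
    rw [disjoint_left]
    intro y hy hyK
    have := mem_Ioc.1 (hK hyK)
    have := mem_Icc.1 hy
    omega
  refine ⟨union_subset (fun y hy => ?_) (fun y hy => ?_), fun i hi => ?_⟩
  · have := mem_Icc.1 hy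
    exact mem_Icc.2 (by omega)
  · have := mem_Ioc.1 (hK hy)
    exact mem_Icc.2 (by omega)
  · rw [card_union_of_disjoint hdisj, Nat.card_Icc, hKc] at hi
    have : i = x - 1 := by omega
    subst this
    exact subset_union_left

/-- `[x-1] ∪ K` -/
def bg (x : ℕ) (hx : x ∈ Icc 1 n) (K : Finset ℕ) (hK : K ⊆ Ioc x n) (hKc : K.card = k) : PP k n :=
  ⟨Icc 1 (x - 1) ∪ K, big_mem x hx K hK hKc⟩

theorem incomp (hk : 1 ≤ k) (x : ℕ) (hx : x ∈ Icc 1 n) (K : Finset ℕ) (hK : K ⊆ Ioc x n) (hKc : K.card = k) :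
    Incomp (sg hk x hx : PP k n) (bg x hx K hK hKc) := by
  have hx' := mem_Icc.1 hx
  constructor
  · intro h
    have h1 : ({x} : Finset ℕ) ⊆ Icc 1 (x - 1) ∪ K := h
    have h2 := mem_union.1 (h1 (mem_singleton_self x))
    rcases h2 with h2 | h2
    · have := mem_Icc.1 h2; omega
    · have := mem_Ioc.1 (hK h2); omega
  · intro h
    have h1 : Icc 1 (x - 1) ∪ K ⊆ ({x} : Finset ℕ) := h
    obtain ⟨y, hy⟩ := card_pos.1 (show 0 < K.card by omega)
    have h2 := mem_singleton.1 (h1 (mem_union_right _ hy))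
    have := mem_Ioc.1 (hK hy)
    omega

/-- the heads of the critical pairs reversed by `L` -/
def Head (hk : 1 ≤ k) (L : LinExt (PP k n)) (x : ℕ) : Prop :=
  ∃ (hx : x ∈ Icc 1 n) (K : Finset ℕ) (hK : K ⊆ Ioc x n) (hKc : K.card = k), L.gt (sg hk x hx) (bg x hx K hK hKc)

theorem not_head (hk : 1 ≤ k) (L : LinExt (PP k n)) (x : ℕ) (hx : x ∈ Icc 1 n) (K : Finset ℕ) (hK : K ⊆ Ioc x n)
    (hKc : K.card = k) (h : L.gt (sg hk x hx) (bg x hx K hK hKc)) (y : ℕ) (hy : y ∈ K) : ¬ Head hk L y := by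
  rintro ⟨hyI, K', hK', hKc', h'⟩
  have hxy := (mem_Ioc.1 (hK hy)).1
  have e1 : L.le (sg hk y hyI) (bg x hx K hK hKc) := by
    apply L.ext
    show ({y} : Finset ℕ) ⊆ Icc 1 (x - 1) ∪ K
    exact singleton_subset_iff.2 (mem_union_right _ hy)
  have e2 : L.le (sg hk x hx) (bg y hyI K' hK' hKc') := by
    apply L.ext
    show ({x} : Finset ℕ) ⊆ Icc 1 (y - 1) ∪ K'
    have := mem_Icc.1 hx
    exact singleton_subset_iff.2 (mem_union_left _ (mem_Icc.2 (by omega)))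
  -- {y} ≤ b < {x} ≤ b' < {y}
  have e3 : L.le (sg hk y hyI) (sg hk x hx) := L.trans _ _ _ e1 h.1
  have e4 : L.le (sg hk x hx) (sg hk y hyI) := L.trans _ _ _ e2 h'.1
  have e5 := L.antisymm _ _ e3 e4
  have e6 : ({y} : Finset ℕ) = {x} := congrArg Subtype.val e5
  have := singleton_injective e6
  omega

end elem

/-! densities -/

/-- density of `χ` in the block `b` of scale `s` -/
noncomputable def DD (m : ℕ) (χ : ℕ → ℝ) (s b : ℕ) : ℝ := (∑ u ∈ range (m ^ s), χ (b * m ^ s + u + 1)) / (m:ℝ) ^ s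

theorem sum_range_blocks (m M : ℕ) (f : ℕ → ℝ) : ∑ u ∈ range (m * M), f u = ∑ j ∈ range m, ∑ v ∈ range M, f (j * M + v) := by
  induction m with
  | zero => simp
  | succ m ih =>
    rw [Nat.succ_mul, sum_range_add, ih, sum_range_succ]

theorem DD_succ (m : ℕ) (hm : 0 < m) (χ : ℕ → ℝ) (s a : ℕ) :
    DD m χ (s + 1) a = (∑ j ∈ range m, DD m χ s (a * m + j)) / m := by
  have hm0 : (m:ℝ) ≠ 0 := by exact_mod_cast hm.ne'
  unfold DD
  rw [← sum_div, pow_succ' m s, sum_range_blocks]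
  have e : ∀ j ∈ range m, ∑ v ∈ range (m ^ s), χ (a * (m * m ^ s) + (j * m ^ s + v) + 1)
      = ∑ v ∈ range (m ^ s), χ ((a * m + j) * m ^ s + v + 1) := by
    intro j _
    apply sum_congr rfl
    intro v _
    congr 1
    ring
  rw [sum_congr rfl e, pow_succ]
  field_simp

theorem DD_range (m : ℕ) (hm : 0 < m) (χ : ℕ → ℝ) (h0 : ∀ x, 0 ≤ χ x) (h1 : ∀ x, χ x ≤ 1) (s b : ℕ) :
    0 ≤ DD m χ s b ∧ DD m χ s b ≤ 1 := by
  have hm0 : (0:ℝ) < (m:ℝ) ^ s := by positivity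
  unfold DD
  constructor
  · exact div_nonneg (sum_nonneg (fun _ _ => h0 _)) hm0.le
  · rw [div_le_one hm0]
    calc _ ≤ ∑ _u ∈ range (m ^ s), (1:ℝ) := sum_le_sum (fun _ _ => h1 _)
      _ = (m:ℝ) ^ s := by simp

/-- mean square density at scale `s` -/
noncomputable def QQ (m T : ℕ) (χ : ℕ → ℝ) (s : ℕ) : ℝ := (∑ b ∈ range (m ^ (T - s)), DD m χ s b ^ 2) / (m:ℝ) ^ (T - s)

/-- variance inside a block -/
noncomputable def VV (m : ℕ) (χ : ℕ → ℝ) (s a : ℕ) : ℝ :=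
  (∑ j ∈ range m, DD m χ s (a * m + j) ^ 2) / m - DD m χ (s + 1) a ^ 2

theorem QQ_step (m T : ℕ) (hm : 0 < m) (χ : ℕ → ℝ) (s : ℕ) (hs : s < T) :
    QQ m T χ s - QQ m T χ (s + 1) = (∑ a ∈ range (m ^ (T - (s + 1))), VV m χ s a) / (m:ℝ) ^ (T - (s + 1)) := by
  have hm0 : (m:ℝ) ≠ 0 := by exact_mod_cast hm.ne'
  have e : T - s = (T - (s + 1)) + 1 := by omega
  unfold QQ VV
  rw [e, pow_succ, mul_comm (m ^ (T - (s + 1))) m, mul_comm m (m ^ (T - (s + 1))), sum_range_blocks, sum_sub_distrib, ← sum_div]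
  rw [pow_succ]
  field_simp

end Pool.Agent.X145.FD
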